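import Mathlib

/-!
# MP_c377d9_an : definitions

`E n = ℝ^{n+1}` (so `N = n+1`), `F d = ℝ^d`.
-/

open MeasureTheory Filter Set Metric Topology
open scoped ENNReal NNReal InnerProductSpace

namespace R257.BJ

/-- The space `ℝ^N` with `N = n + 1`. -/
abbrev E (n : ℕ) := EuclideanSpace ℝ (Fin (n + 1))

/-- The target space `ℝ^d`. -/
abbrev F (d : ℕ) := EuclideanSpace ℝ (Fin d)

variable {n d : ℕ}

/-- `Φ(h) = ∫ |u(x+h) - u(x)|^q dx`. -/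
noncomputable def Phi (q : ℝ) (u : E n → F d) (h : E n) : ℝ≥0∞ :=
  ∫⁻ x, ‖u (x + h) - u x‖ₑ ^ q

/-- The Gagliardo energy `[v]^q_{W^{1/q,q}} = ∫∫ |v(x)-v(y)|^q / |x-y|^{N+1} dx dy`. -/
noncomputable def gag (q : ℝ) (v : E n → F d) : ℝ≥0∞ :=
  ∫⁻ x, ∫⁻ y, ‖v x - v y‖ₑ ^ q / ‖x - y‖ₑ ^ (n + 2)

/-- `u ∈ B^{1/q}_{q,∞}(ℝ^N, ℝ^d)`. -/
def MemBesov (q : ℝ) (u : E n → F d) : Prop :=
  MemLp u (ENNReal.ofReal q) volume ∧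
    ∃ C : ℝ, ∀ h : E n, h ≠ 0 → Phi q u h / ‖h‖ₑ ≤ ENNReal.ofReal C

/-- The mollification `u_ε(x) = ∫ η(z) u(x - ε z) dz`. -/
noncomputable def moll (η : E n → ℝ) (ε : ℝ) (u : E n → F d) (x : E n) : F d :=
  ∫ z, η z • u (x - ε • z)

/-- The open half ball `B_r^+(x,ν)`; `B_r^-(x,ν)` is `halfBall x (-ν) r`. -/
def halfBall (x ν : E n) (r : ℝ) : Set (E n) := {y | ‖y - x‖ < r ∧ 0 < ⟪ν, y - x⟫_ℝ}

/-- `x` is an approximate jump point of `u` with one-sided values `a` (side `ν`), `b` (side `-ν`). -/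
def IsJump (u : E n → F d) (x : E n) (a b : F d) (ν : E n) : Prop :=
  a ≠ b ∧ ‖ν‖ = 1 ∧
  Tendsto (fun r : ℝ => (∫⁻ y in halfBall x ν r, ‖u y - a‖ₑ) / ENNReal.ofReal (r ^ (n + 1)))
    (𝓝[>] 0) (𝓝 0) ∧
  Tendsto (fun r : ℝ => (∫⁻ y in halfBall x (-ν) r, ‖u y - b‖ₑ) / ENNReal.ofReal (r ^ (n + 1)))
    (𝓝[>] 0) (𝓝 0)

/-- `|u^+(x) - u^-(x)|` for `x` in the jump set, and `0` off the jump set (the supremum over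
all admissible triples; they all give the same value). -/
noncomputable def jumpSize (u : E n → F d) (x : E n) : ℝ≥0∞ :=
  ⨆ (a : F d) (b : F d) (ν : E n) (_ : IsJump u x a b ν), ‖a - b‖ₑ

/-- Normalising constant: `H^n` of the unit ball of `ℝ^n` is its Lebesgue measure. -/
noncomputable def hausConst (n : ℕ) : ℝ≥0∞ :=
  volume (ball (0 : EuclideanSpace ℝ (Fin n)) 1) /
    Measure.hausdorffMeasure (n : ℝ) (ball (0 : EuclideanSpace ℝ (Fin n)) 1)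

/-- The Hausdorff measure `H^{N-1}` on `ℝ^N` (`N - 1 = n`), normalised as usual so that it agrees
with Lebesgue measure on `ℝ^{N-1}`. -/
noncomputable def Hn (n : ℕ) : Measure (E n) :=
  hausConst n • Measure.hausdorffMeasure (n : ℝ)

/-- `κ_N = ∫_{S^{N-1}} |z_1| dσ(z)`, `σ` the surface measure on the unit sphere. -/
noncomputable def kappa (n : ℕ) : ℝ≥0∞ :=
  ∫⁻ z : sphere (0 : E n) 1, ‖(z : E n) 0‖ₑ ∂(volume : Measure (E n)).toSphere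

/-- `σ(S^{N-1})`. -/
noncomputable def sigma (n : ℕ) : ℝ≥0∞ := (volume : Measure (E n)).toSphere univ

/-- The annulus `ε ≤ |h| ≤ B`. -/
def ann (n : ℕ) (A B : ℝ) : Set (E n) := {h | A ≤ ‖h‖ ∧ ‖h‖ ≤ B}

/-- points where `u` is, at all scales `≤ ρ`, `δ`-close to `a` on the side `ν`, to `b` on `-ν`. -/
def Cset (u : E n → F d) (a b : F d) (ν : E n) (ρ δ : ℝ) : Set (E n) :=
  {x | ∀ r : ℝ, 0 < r → r ≤ ρ →
    (∫⁻ y in halfBall x ν r, ‖u y - a‖ₑ) ≤ ENNReal.ofReal (δ * r ^ (n + 1)) ∧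
    (∫⁻ y in halfBall x (-ν) r, ‖u y - b‖ₑ) ≤ ENNReal.ofReal (δ * r ^ (n + 1))}

/-! ## Statements of the parts -/

/-- PART B (mollification comparison). -/
def StmB : Prop := ∀ (n d : ℕ) (q : ℝ), 1 < q → ∀ (u : E n → F d),
  MemLp u (ENNReal.ofReal q) volume →
  ∀ C : ℝ, 0 ≤ C → (∀ h : E n, Phi q u h ≤ ENNReal.ofReal C * ‖h‖ₑ) →
  ∀ η : E n → ℝ, Integrable η volume →
  ‖∫ z, η z‖ₑ ^ q *
    liminf (fun ε : ℝ => (∫⁻ h in ann n ε 1, Phi q u h / ‖h‖ₑ ^ (n + 2)) /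
      ENNReal.ofReal |Real.log ε|) (𝓝[>] 0)
  ≤ liminf (fun ε : ℝ => gag q (moll η ε u) / ENNReal.ofReal |Real.log ε|) (𝓝[>] 0)

/-- PART S (two polar coordinate integrals). -/
def StmS : Prop := ∀ (n : ℕ) (A B : ℝ), 0 < A → A ≤ B →
  (∀ ν : E n, ‖ν‖ = 1 →
    ∫⁻ h in ann n A B, ‖⟪ν, h⟫_ℝ‖ₑ / ‖h‖ₑ ^ (n + 2) = kappa n * ENNReal.ofReal (Real.log (B / A))) ∧
  ∫⁻ h in ann n A B, ‖h‖ₑ / ‖h‖ₑ ^ (n + 2) = sigma n * ENNReal.ofReal (Real.log (B / A)) ∧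
  sigma n ≠ ⊤ ∧ kappa n ≠ ⊤

/-- PART T (orthogonal decomposition along a unit vector). -/
def StmT : Prop := ∀ (n : ℕ) (ν : E n), ‖ν‖ = 1 →
  ∃ P : E n →ₗ[ℝ] EuclideanSpace ℝ (Fin n),
    (∀ x : E n, ‖x‖ ^ 2 = ⟪ν, x⟫_ℝ ^ 2 + ‖P x‖ ^ 2) ∧
    MeasurePreserving (fun x : E n => (⟪ν, x⟫_ℝ, P x)) volume
      ((volume : Measure ℝ).prod (volume : Measure (EuclideanSpace ℝ (Fin n))))

/-- PART H (Hausdorff measure of a flat graph). -/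
def StmH : Prop := ∀ (n : ℕ) (ν : E n) (P : E n →ₗ[ℝ] EuclideanSpace ℝ (Fin n)),
  (∀ x : E n, ‖x‖ ^ 2 = ⟪ν, x⟫_ℝ ^ 2 + ‖P x‖ ^ 2) →
  ∀ (L : ℝ), 0 ≤ L → L < 1 → ∀ K : Set (E n),
    (∀ x ∈ K, ∀ y ∈ K, |⟪ν, x - y⟫_ℝ| ≤ L * ‖x - y‖) →
    Hn n K ≤ ENNReal.ofReal (1 / Real.sqrt (1 - L ^ 2)) ^ n * volume (P '' K)

/-- PART M (measure theory: disjointification and inner regularity). -/
def StmM : Prop := ∀ (n : ℕ) (ι : Type) (_ : Countable ι) (D : ι → Set (E n)) (w : ι → ℝ≥0∞)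
  (T : ℝ≥0∞) (μ : Measure (E n)),
  (∀ i, IsCompact (D i)) → (∀ i, μ (D i) < ⊤) → (∀ i, w i ≠ ⊤) →
  (∀ (s : Finset ι) (K : ι → Set (E n)), (∀ i ∈ s, IsCompact (K i)) → (∀ i ∈ s, K i ⊆ D i) →
    (∀ i ∈ s, ∀ j ∈ s, i ≠ j → Disjoint (K i) (K j)) → ∑ i ∈ s, w i * μ (K i) ≤ T) →
  ∫⁻ x, ⨆ i, (D i).indicator (fun _ => w i) x ∂μ ≤ T

/-- PART J (jump points lie in the sets `Cset` for nearby parameters). -/
def StmJ : Prop := ∀ (n d : ℕ) (u : E n → F d) (x : E n) (a b : F d) (ν : E n),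
  IsJump u x a b ν → ∀ δ : ℝ, 0 < δ → ∃ τ : ℝ, 0 < τ ∧ ∀ (a' b' : F d) (ν' : E n),
    ‖a' - a‖ < τ → ‖b' - b‖ < τ → ‖ν' - ν‖ < τ → ‖ν'‖ = 1 →
    ∃ ρ : ℝ, 0 < ρ ∧ x ∈ Cset u a' b' ν' ρ (δ * ‖a' - b'‖)

end R257.BJ
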