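import Pool.Agent.R257.BJ.Defs

/-!
# MP_c377d9_an : parts T and H
-/

open MeasureTheory Filter Set Metric Topology
open scoped ENNReal NNReal InnerProductSpace

namespace R257.BJ

lemma exists_basis {n : ℕ} (ν : E n) (hν : ‖ν‖ = 1) :
    ∃ b : OrthonormalBasis (Fin (n + 1)) ℝ (E n), b 0 = ν := by
  obtain ⟨b, hb⟩ := Orthonormal.exists_orthonormalBasis_extension_of_card_eq
    (𝕜 := ℝ) (E := E n) (ι := Fin (n + 1)) (by simp) (v := fun _ => ν) (s := {0}) (by
      constructor
      · rintro ⟨i, hi⟩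
        exact hν
      · rintro ⟨i, hi⟩ ⟨j, hj⟩ hij
        exfalso
        apply hij
        rw [mem_singleton_iff] at hi hj
        simp [hi, hj])
  exact ⟨b, hb 0 rfl⟩

theorem stmT : StmT := by
  intro n ν hν
  obtain ⟨b, hb⟩ := exists_basis ν hν
  let P : E n →ₗ[ℝ] EuclideanSpace ℝ (Fin n) :=
    { toFun := fun x => WithLp.toLp 2 (fun i => b.repr x i.succ)
      map_add' := by
        intro x y
        ext i
        simp
      map_smul' := by
        intro c x
        ext i
        simp }
  have hP : ∀ x i, P x i = b.repr x i.succ := fun x i => rfl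
  have h0 : ∀ x, ⟪ν, x⟫_ℝ = b.repr x 0 := by
    intro x
    rw [b.repr_apply_apply, hb]
  refine ⟨P, ?_, ?_⟩
  · intro x
    rw [← b.repr.norm_map x, EuclideanSpace.norm_sq_eq, EuclideanSpace.norm_sq_eq,
      Fin.sum_univ_succ, h0]
    simp only [hP, Real.norm_eq_abs, sq_abs]
  · have h1 := b.measurePreserving_repr
    have h2 := EuclideanSpace.volume_preserving_symm_measurableEquiv_toLp (Fin (n + 1))
    have h3 := volume_preserving_piFinSuccAbove (fun _ : Fin (n + 1) => ℝ) 0
    have h4 := (MeasurePreserving.id (volume : Measure ℝ)).prod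
      (EuclideanSpace.volume_preserving_symm_measurableEquiv_toLp (Fin n)).symm
    have h5 := h4.comp (h3.comp (h2.comp h1))
    convert h5 using 1
    funext x
    rw [h0]
    rfl

lemma haus_volume (n : ℕ) (S : Set (EuclideanSpace ℝ (Fin n))) :
    hausConst n * Measure.hausdorffMeasure (n : ℝ) S = volume S := by
  have hd : Module.finrank ℝ (EuclideanSpace ℝ (Fin n)) = n := by simp
  have hH : (Measure.hausdorffMeasure (n : ℝ) :
      Measure (EuclideanSpace ℝ (Fin n))).IsAddHaarMeasure := by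
    have := isAddHaarMeasure_hausdorffMeasure (E := EuclideanSpace ℝ (Fin n))
    rw [hd] at this
    exact this
  have h1 := Measure.isAddLeftInvariant_eq_smul (volume : Measure (EuclideanSpace ℝ (Fin n)))
    (Measure.hausdorffMeasure (n : ℝ))
  set c := (volume : Measure (EuclideanSpace ℝ (Fin n))).addHaarScalarFactor
    (Measure.hausdorffMeasure (n : ℝ)) with hc
  have h2 : ∀ T : Set (EuclideanSpace ℝ (Fin n)),
      volume T = (c : ℝ≥0∞) * Measure.hausdorffMeasure (n : ℝ) T := by
    intro T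
    conv_lhs => rw [h1]
    rfl
  have h3 : hausConst n = c := by
    unfold hausConst
    rw [h2, ENNReal.mul_div_cancel_right]
    · exact (measure_ball_pos _ _ one_pos).ne'
    · exact measure_ball_lt_top.ne
  rw [h3, h2]

theorem stmH : StmH := by
  intro n ν P hP L hL0 hL1 K hK
  have hL : 0 < 1 - L ^ 2 := by nlinarith
  set Kc : ℝ≥0 := Real.toNNReal (1 / Real.sqrt (1 - L ^ 2)) with hKc
  have hanti : AntilipschitzWith Kc (fun x : K => P x.1) := by
    apply AntilipschitzWith.of_le_mul_dist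
    rintro ⟨x, hx⟩ ⟨y, hy⟩
    rw [Subtype.dist_eq, dist_eq_norm, dist_eq_norm]
    simp only
    rw [hKc, Real.coe_toNNReal _ (by positivity)]
    have h1 := hP (x - y)
    have h2 := hK x hx y hy
    have h3 : ⟪ν, x - y⟫_ℝ ^ 2 ≤ (L * ‖x - y‖) ^ 2 := by
      rw [← sq_abs]
      exact pow_le_pow_left₀ (abs_nonneg _) h2 2
    have h4 : (1 - L ^ 2) * ‖x - y‖ ^ 2 ≤ ‖P x - P y‖ ^ 2 := by
      rw [← map_sub]
      nlinarith
    have h5 : Real.sqrt (1 - L ^ 2) * ‖x - y‖ ≤ ‖P x - P y‖ := by
      apply le_of_sq_le_sq _ (norm_nonneg _)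
      rw [mul_pow, Real.sq_sqrt hL.le]
      exact h4
    have h6 : 0 < Real.sqrt (1 - L ^ 2) := Real.sqrt_pos.2 hL
    rw [one_div, inv_mul_eq_div, le_div_iff₀ h6, mul_comm]
    exact h5
  have h1 : (Measure.hausdorffMeasure (n : ℝ) : Measure (E n)) K ≤
      (Kc : ℝ≥0∞) ^ n * (Measure.hausdorffMeasure (n : ℝ)) (P '' K) := by
    have h2 := hanti.le_hausdorffMeasure_image (d := (n : ℝ)) (Nat.cast_nonneg _) univ
    have h3 := (isometry_subtype_coe (s := K)).hausdorffMeasure_image (d := (n : ℝ))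
      (Or.inl (Nat.cast_nonneg _)) univ
    rw [image_univ, Subtype.range_coe] at h3
    rw [h3]
    have h4 : (fun x : K => P x.1) '' univ = P '' K := by
      rw [image_univ]
      ext z
      simp
    rw [h4, ENNReal.rpow_natCast] at h2
    exact h2
  unfold Hn
  rw [Measure.smul_apply, smul_eq_mul, ← haus_volume n (P '' K)]
  calc hausConst n * (Measure.hausdorffMeasure (n : ℝ) : Measure (E n)) K
      ≤ hausConst n * ((Kc : ℝ≥0∞) ^ n * (Measure.hausdorffMeasure (n : ℝ)) (P '' K)) := by
        gcongr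
    _ = ENNReal.ofReal (1 / Real.sqrt (1 - L ^ 2)) ^ n *
        (hausConst n * (Measure.hausdorffMeasure (n : ℝ)) (P '' K)) := by
        rw [hKc]
        change hausConst n * (ENNReal.ofReal _ ^ n * _) = _
        ring

end R257.BJ
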