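import Pool.Agent.R257.BJ.Local

open MeasureTheory Filter Set Metric Topology
open scoped ENNReal NNReal InnerProductSpace

namespace R257.BJ

variable {n d : ℕ}

/-- `W r = ` volume of a ball of radius `r` in `ℝ^n`. -/
noncomputable def W (n : ℕ) (r : ℝ) : ℝ≥0∞ := volume (ball (0 : EuclideanSpace ℝ (Fin n)) r)

lemma W_eq (n : ℕ) (y : EuclideanSpace ℝ (Fin n)) (r : ℝ) : volume (ball y r) = W n r :=
  Measure.addHaar_ball_center volume y r

lemma W_scale (n : ℕ) {r : ℝ} (h : 0 < r) : W n r = ENNReal.ofReal (r ^ n) * W n 1 := by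
  unfold W
  have := Measure.addHaar_ball_mul_of_pos (volume : Measure (EuclideanSpace ℝ (Fin n))) 0 h 1
  rw [mul_one] at this
  rw [this]; simp

lemma W_pos (n : ℕ) {r : ℝ} (hr : 0 < r) : W n r ≠ 0 := (measure_ball_pos _ _ hr).ne'
lemma W_top (n : ℕ) (r : ℝ) : W n r ≠ ⊤ := measure_ball_lt_top.ne

/-- the constant in the local inequality -/
noncomputable def Cq (n : ℕ) (q : ℝ) : ℝ≥0∞ := ENNReal.ofReal (2 * q * 3 ^ (n + 1)) / W n 1

lemma Cq_top (n : ℕ) (q : ℝ) : Cq n q ≠ ⊤ :=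
  ENNReal.div_ne_top ENNReal.ofReal_ne_top (W_pos n one_pos)

lemma real_ineq {q : ℝ} (hq : 1 ≤ q) {s e D : ℝ} (hs : 0 < s) (he : 0 ≤ e) (hD : 0 ≤ D)
    (h : s ≤ D + e) : s ^ q ≤ D ^ q + q * s ^ (q - 1) * e := by
  have hq0 : 0 ≤ q := by linarith
  have hsq : s ^ q = s * s ^ (q - 1) := by
    rw [← Real.rpow_one_add' hs.le (by linarith)]; congr 1; ring
  rcases le_or_gt s e with hse | hse
  · have h1 : s ^ q ≤ q * s ^ (q - 1) * e := by
      rw [hsq]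
      have : 0 ≤ s ^ (q - 1) := Real.rpow_nonneg hs.le _
      nlinarith [mul_le_mul_of_nonneg_right hq (mul_nonneg this he), mul_le_mul_of_nonneg_left hse this]
    have h2 : 0 ≤ D ^ q := Real.rpow_nonneg hD _
    linarith
  · have h1 : (s - e) ^ q ≤ D ^ q := Real.rpow_le_rpow (by linarith) (by linarith) hq0
    have h2 : 1 + q * (-(e / s)) ≤ (1 + -(e / s)) ^ q := by
      apply one_add_mul_self_le_rpow_one_add _ hq
      have : e / s ≤ 1 := by rw [div_le_one hs]; exact hse.le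
      linarith
    have h3 : (s - e) ^ q = s ^ q * (1 + -(e / s)) ^ q := by
      rw [← Real.mul_rpow hs.le]
      · congr 1; field_simp; ring
      · have : e / s ≤ 1 := by rw [div_le_one hs]; exact hse.le
        linarith
    have h4 : 0 ≤ s ^ q := Real.rpow_nonneg hs.le _
    have h5 : s ^ q * (1 + q * (-(e / s))) = s ^ q - q * s ^ (q - 1) * e := by
      rw [hsq]; field_simp; ring
    nlinarith [mul_le_mul_of_nonneg_left h2 h4]

lemma ptwise {q : ℝ} (hq : 1 ≤ q) {a b A B : F d} (hab : a ≠ b) :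
    ‖a - b‖ₑ ^ q ≤ ‖A - B‖ₑ ^ q +
      ENNReal.ofReal (q * ‖a - b‖ ^ (q - 1)) * (‖A - a‖ₑ + ‖B - b‖ₑ) := by
  have hs : 0 < ‖a - b‖ := norm_pos_iff.mpr (sub_ne_zero.mpr hab)
  have htri : ‖a - b‖ ≤ ‖A - B‖ + (‖A - a‖ + ‖B - b‖) := by
    have : a - b = (A - B) + (-(A - a) + (B - b)) := by abel
    calc ‖a - b‖ = ‖(A - B) + (-(A - a) + (B - b))‖ := by rw [← this]
      _ ≤ ‖A - B‖ + (‖-(A - a)‖ + ‖B - b‖) :=
          (norm_add_le _ _).trans (add_le_add le_rfl (norm_add_le _ _))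
      _ = _ := by rw [norm_neg]
  have h := real_ineq hq hs (by positivity) (norm_nonneg (A - B)) htri
  have hq0 : 0 ≤ q := by linarith
  have c1 : ∀ v : F d, ‖v‖ₑ ^ q = ENNReal.ofReal (‖v‖ ^ q) := by
    intro v
    rw [← ofReal_norm, ENNReal.ofReal_rpow_of_nonneg (norm_nonneg _) hq0]
  rw [c1, c1, ← ofReal_norm, ← ofReal_norm, ← ENNReal.ofReal_add (norm_nonneg _) (norm_nonneg _),
    ← ENNReal.ofReal_mul (by positivity), ← ENNReal.ofReal_add (by positivity) (by positivity)]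
  exact ENNReal.ofReal_le_ofReal h

/-- the crossing region at `p` -/
def Xset (ν : E n) (P : E n →ₗ[ℝ] EuclideanSpace ℝ (Fin n)) (p : E n) (t r : ℝ) : Set (E n) :=
  {x | -t < ⟪ν, x - p⟫_ℝ ∧ ⟪ν, x - p⟫_ℝ < 0 ∧ ‖P (x - p)‖ < r}

lemma Xset_vol {ν : E n} {P : E n →ₗ[ℝ] EuclideanSpace ℝ (Fin n)}
    (hP2 : MeasurePreserving (fun x : E n => (⟪ν, x⟫_ℝ, P x)) volume
      ((volume : Measure ℝ).prod (volume : Measure (EuclideanSpace ℝ (Fin n)))))
    (p : E n) (t r : ℝ) : volume (Xset ν P p t r) = ENNReal.ofReal t * W n r := by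
  have h : Xset ν P p t r = (fun x : E n => (⟪ν, x⟫_ℝ, P x)) ⁻¹'
      (Ioo (⟪ν, p⟫_ℝ - t) ⟪ν, p⟫_ℝ ×ˢ ball (P p) r) := by
    ext x
    simp only [Xset, mem_ofPred_eq, mem_preimage, mem_prod, mem_Ioo, mem_ball, dist_eq_norm,
      inner_sub_right, map_sub]
    constructor
    · rintro ⟨h1, h2, h3⟩; exact ⟨⟨by linarith, by linarith⟩, h3⟩
    · rintro ⟨⟨h1, h2⟩, h3⟩; exact ⟨by linarith, by linarith, h3⟩
  rw [h, hP2.measure_preimage (measurableSet_Ioo.prod measurableSet_ball).nullMeasurableSet,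
    Measure.prod_prod, Real.volume_Ioo, W_eq]
  congr 2; ring

lemma Xset_meas {ν : E n} {P : E n →ₗ[ℝ] EuclideanSpace ℝ (Fin n)} (p : E n) (t r : ℝ) :
    MeasurableSet (Xset ν P p t r) := by
  have hP : Continuous P := P.continuous_of_finiteDimensional
  have h1 : IsOpen {x : E n | -t < ⟪ν, x - p⟫_ℝ} := isOpen_lt continuous_const (by fun_prop)
  have h2 : IsOpen {x : E n | ⟪ν, x - p⟫_ℝ < 0} := isOpen_lt (by fun_prop) continuous_const
  have h3 : IsOpen {x : E n | ‖P (x - p)‖ < r} := isOpen_lt (by fun_prop) continuous_const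
  exact (h1.inter (h2.inter h3)).measurableSet

lemma perh {u : E n → F d} (hu : AEStronglyMeasurable u volume) {q : ℝ} (hq : 1 ≤ q) {a b : F d}
    (hab : a ≠ b) {ν : E n} (hν : ‖ν‖ = 1) {P : E n →ₗ[ℝ] EuclideanSpace ℝ (Fin n)}
    (hP1 : ∀ x : E n, ‖x‖ ^ 2 = ⟪ν, x⟫_ℝ ^ 2 + ‖P x‖ ^ 2)
    (hP2 : MeasurePreserving (fun x : E n => (⟪ν, x⟫_ℝ, P x)) volume
      ((volume : Measure ℝ).prod (volume : Measure (EuclideanSpace ℝ (Fin n)))))
    {ρ δ : ℝ} {p h : E n}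
    (hp : p ∈ Cset u a b ν ρ (δ * ‖a - b‖)) (hh : 0 < ‖h‖) (h3 : 3 * ‖h‖ ≤ ρ) :
    ‖a - b‖ₑ ^ q * (ENNReal.ofReal ⟪ν, h⟫_ℝ * W n ‖h‖) ≤
      (∫⁻ x in Xset ν P p ⟪ν, h⟫_ℝ ‖h‖, ‖u (x + h) - u x‖ₑ ^ q) +
      ENNReal.ofReal (q * ‖a - b‖ ^ (q - 1)) *
        (2 * ENNReal.ofReal (δ * ‖a - b‖ * (3 * ‖h‖) ^ (n + 1))) := by
  set t := ⟪ν, h⟫_ℝ with htd
  set r := ‖h‖ with hr
  set X := Xset ν P p t r with hX
  have hXm : MeasurableSet X := Xset_meas p t r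
  have htr : t ≤ r := by
    have := real_inner_le_norm ν h
    rwa [hν, one_mul] at this
  have hub : ∀ x ∈ X, ‖x - p‖ < 2 * r := by
    intro x hx
    have h1 := hP1 (x - p)
    have h2 : ⟪ν, x - p⟫_ℝ ^ 2 ≤ r ^ 2 := by
      have a1 : -r ≤ ⟪ν, x - p⟫_ℝ := by linarith [hx.1]
      have a2 : ⟪ν, x - p⟫_ℝ ≤ r := by linarith [hx.2.1]
      nlinarith
    have h4 : ‖P (x - p)‖ ^ 2 ≤ r ^ 2 := by
      have := hx.2.2.le
      have := norm_nonneg (P (x - p))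
      nlinarith
    have h5 : ‖x - p‖ ^ 2 < (2 * r) ^ 2 := by rw [h1]; nlinarith
    exact lt_of_pow_lt_pow_left₀ 2 (by positivity) h5
  have hXb : X ⊆ halfBall p (-ν) (3 * r) := by
    intro x hx
    refine ⟨by linarith [hub x hx], ?_⟩
    rw [inner_neg_left]; linarith [hx.2.1]
  have hXa : ∀ x ∈ X, x + h ∈ halfBall p ν (3 * r) := by
    intro x hx
    have e : x + h - p = (x - p) + h := by abel
    refine ⟨?_, ?_⟩
    · rw [e]
      calc ‖x - p + h‖ ≤ ‖x - p‖ + ‖h‖ := norm_add_le _ _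
        _ < 2 * r + r := by linarith [hub x hx]
        _ = 3 * r := by ring
    · rw [e, inner_add_right]; linarith [hx.1]
  have hC := hp (3 * r) (by linarith) h3
  have hum : AEMeasurable (fun x => ‖u x - b‖ₑ) (volume.restrict X) :=
    ((hu.sub aestronglyMeasurable_const).enorm).restrict
  have hqm : Measure.QuasiMeasurePreserving (fun x : E n => x + h) volume volume :=
    (measurePreserving_add_right volume h).quasiMeasurePreserving
  have hush : AEStronglyMeasurable (fun x => u (x + h)) volume :=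
    hu.comp_quasiMeasurePreserving hqm
  have i1 : ∫⁻ x in X, ‖u (x + h) - a‖ₑ ≤ ENNReal.ofReal (δ * ‖a - b‖ * (3 * r) ^ (n + 1)) := by
    refine le_trans ?_ hC.1
    calc ∫⁻ x in X, ‖u (x + h) - a‖ₑ
        ≤ ∫⁻ x in (fun x => x + h) ⁻¹' (halfBall p ν (3 * r)), ‖u (x + h) - a‖ₑ :=
          lintegral_mono_set (fun x hx => hXa x hx)
      _ = ∫⁻ y in halfBall p ν (3 * r), ‖u y - a‖ₑ := by
          exact (measurePreserving_add_right volume h).setLIntegral_comp_preimage_emb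
            (measurableEmbedding_addRight h) (fun y => ‖u y - a‖ₑ) _
  have i2 : ∫⁻ x in X, ‖u x - b‖ₑ ≤ ENNReal.ofReal (δ * ‖a - b‖ * (3 * r) ^ (n + 1)) :=
    (lintegral_mono_set hXb).trans hC.2
  calc ‖a - b‖ₑ ^ q * (ENNReal.ofReal t * W n r)
      = ∫⁻ _ in X, ‖a - b‖ₑ ^ q := by rw [setLIntegral_const, Xset_vol hP2]
    _ ≤ ∫⁻ x in X, (‖u (x + h) - u x‖ₑ ^ q +
          ENNReal.ofReal (q * ‖a - b‖ ^ (q - 1)) * (‖u (x + h) - a‖ₑ + ‖u x - b‖ₑ)) :=
        lintegral_mono fun x => ptwise hq hab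
    _ = (∫⁻ x in X, ‖u (x + h) - u x‖ₑ ^ q) +
          ENNReal.ofReal (q * ‖a - b‖ ^ (q - 1)) *
            ((∫⁻ x in X, ‖u (x + h) - a‖ₑ) + ∫⁻ x in X, ‖u x - b‖ₑ) := by
        rw [lintegral_add_left', lintegral_const_mul'' , lintegral_add_left']
        · exact ((hush.sub aestronglyMeasurable_const).enorm).restrict
        · exact (((hush.sub aestronglyMeasurable_const).enorm).restrict).add hum
        · exact ((hush.sub hu).enorm.pow_const q).restrict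
    _ ≤ _ := by
        gcongr
        rw [two_mul]
        exact add_le_add i1 i2

lemma fubini_local {u : E n → F d} (hum : StronglyMeasurable u) {q : ℝ} (hq : 1 ≤ q) {a b : F d}
    (hab : a ≠ b) {ν : E n} (hν : ‖ν‖ = 1) {P : E n →ₗ[ℝ] EuclideanSpace ℝ (Fin n)}
    (hP1 : ∀ x : E n, ‖x‖ ^ 2 = ⟪ν, x⟫_ℝ ^ 2 + ‖P x‖ ^ 2)
    (hP2 : MeasurePreserving (fun x : E n => (⟪ν, x⟫_ℝ, P x)) volume
      ((volume : Measure ℝ).prod (volume : Measure (EuclideanSpace ℝ (Fin n)))))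
    {ρ δ : ℝ} {K : Set (E n)} (hK : IsCompact K) (hKC : K ⊆ Cset u a b ν ρ (δ * ‖a - b‖))
    {h : E n} (hh : 0 < ‖h‖) (h3 : 3 * ‖h‖ ≤ ρ) :
    volume (P '' K) * (‖a - b‖ₑ ^ q * (ENNReal.ofReal ⟪ν, h⟫_ℝ * W n ‖h‖)) ≤
      W n ‖h‖ * (∫⁻ x in thickening (2 * ‖h‖) K, ‖u (x + h) - u x‖ₑ ^ q) +
      volume (P '' K) * (ENNReal.ofReal (q * ‖a - b‖ ^ (q - 1)) *
        (2 * ENNReal.ofReal (δ * ‖a - b‖ * (3 * ‖h‖) ^ (n + 1)))) := by
  set t := ⟪ν, h⟫_ℝ with htd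
  set r := ‖h‖ with hr
  set N := thickening (2 * r) K with hN
  set err := ENNReal.ofReal (q * ‖a - b‖ ^ (q - 1)) *
        (2 * ENNReal.ofReal (δ * ‖a - b‖ * (3 * r) ^ (n + 1))) with herr
  have hPc : Continuous P := P.continuous_of_finiteDimensional
  have hYc : IsCompact (P '' K) := hK.image hPc
  have hYm : MeasurableSet (P '' K) := hYc.measurableSet
  have htr : t ≤ r := by
    have := real_inner_le_norm ν h
    rwa [hν, one_mul] at this
  let g : E n → ℝ≥0∞ := fun x => ‖u (x + h) - u x‖ₑ ^ q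
  have hgm : Measurable g := by
    have h1 : StronglyMeasurable (fun x => u (x + h)) :=
      hum.comp_measurable (measurable_id.add_const h)
    exact ((h1.sub hum).enorm).pow_const q
  let k : EuclideanSpace ℝ (Fin n) → E n → ℝ≥0∞ := fun y x => {z : E n | ‖P z - y‖ < r}.indicator g x
  have hpt : ∀ y ∈ P '' K, ‖a - b‖ₑ ^ q * (ENNReal.ofReal t * W n r) ≤ (∫⁻ x in N, k y x) + err := by
    rintro y ⟨p, hpK, rfl⟩
    refine (perh hum.aestronglyMeasurable hq hab hν hP1 hP2 (hKC hpK) hh h3).trans ?_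
    refine add_le_add ?_ le_rfl
    have hsub : Xset ν P p t r ⊆ N ∩ {z : E n | ‖P z - P p‖ < r} := by
      intro x hx
      refine ⟨?_, ?_⟩
      · rw [hN, mem_thickening_iff]
        refine ⟨p, hpK, ?_⟩
        rw [dist_eq_norm]
        have h1 := hP1 (x - p)
        have h2 : ⟪ν, x - p⟫_ℝ ^ 2 ≤ r ^ 2 := by
          have a1 : -r ≤ ⟪ν, x - p⟫_ℝ := by linarith [hx.1]
          have a2 : ⟪ν, x - p⟫_ℝ ≤ r := by linarith [hx.2.1]
          nlinarith
        have h4 : ‖P (x - p)‖ ^ 2 ≤ r ^ 2 := by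
          have := hx.2.2.le
          have := norm_nonneg (P (x - p))
          nlinarith
        have h5 : ‖x - p‖ ^ 2 < (2 * r) ^ 2 := by rw [h1]; nlinarith
        exact lt_of_pow_lt_pow_left₀ 2 (by positivity) h5
      · have := hx.2.2
        rwa [map_sub] at this
    have hset : MeasurableSet {z : E n | ‖P z - P p‖ < r} := by
      apply IsOpen.measurableSet
      exact isOpen_lt (by fun_prop) continuous_const
    calc ∫⁻ x in Xset ν P p t r, ‖u (x + h) - u x‖ₑ ^ q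
        ≤ ∫⁻ x in N ∩ {z : E n | ‖P z - P p‖ < r}, g x := lintegral_mono_set hsub
      _ = ∫⁻ x in N, k (P p) x := by
          show _ = ∫⁻ x in N, {z : E n | ‖P z - P p‖ < r}.indicator g x
          rw [lintegral_indicator hset, Measure.restrict_restrict hset, inter_comm]
  have hkm : Measurable (fun z : EuclideanSpace ℝ (Fin n) × E n => k z.1 z.2) := by
    have : (fun z : EuclideanSpace ℝ (Fin n) × E n => k z.1 z.2)
        = {z : EuclideanSpace ℝ (Fin n) × E n | ‖P z.2 - z.1‖ < r}.indicator (fun z => g z.2) := by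
      ext z; simp only [k, indicator, mem_ofPred_eq]
    rw [this]
    apply Measurable.indicator (hgm.comp measurable_snd)
    apply IsOpen.measurableSet
    exact isOpen_lt (by fun_prop) continuous_const
  calc volume (P '' K) * (‖a - b‖ₑ ^ q * (ENNReal.ofReal t * W n r))
      = ∫⁻ _ in P '' K, ‖a - b‖ₑ ^ q * (ENNReal.ofReal t * W n r) := by
        rw [setLIntegral_const, mul_comm]
    _ ≤ ∫⁻ y in P '' K, ((∫⁻ x in N, k y x) + err) := setLIntegral_mono' hYm hpt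
    _ = (∫⁻ y in P '' K, ∫⁻ x in N, k y x) + volume (P '' K) * err := by
        rw [lintegral_add_right _ measurable_const, setLIntegral_const, mul_comm err]
    _ = (∫⁻ x in N, ∫⁻ y in P '' K, k y x) + volume (P '' K) * err := by
        rw [lintegral_lintegral_swap hkm.aemeasurable]
    _ ≤ (∫⁻ x in N, W n r * g x) + volume (P '' K) * err := by
        gcongr with x
        calc ∫⁻ y in P '' K, k y x ≤ ∫⁻ y, k y x := setLIntegral_le_lintegral _ _
          _ = ∫⁻ y, (ball (P x) r).indicator (fun _ => g x) y := by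
              apply lintegral_congr
              intro y
              simp only [k, indicator, mem_ofPred_eq, mem_ball, dist_eq_norm, norm_sub_rev y]
          _ = W n r * g x := by
              rw [lintegral_indicator measurableSet_ball, setLIntegral_const, W_eq, mul_comm]
    _ = _ := by rw [lintegral_const_mul _ hgm]

/-- the local inequality -/
theorem local_ineq_pos {u : E n → F d} (hum : StronglyMeasurable u) {q : ℝ} (hq : 1 ≤ q) {a b : F d}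
    (hab : a ≠ b) {ν : E n} (hν : ‖ν‖ = 1) {P : E n →ₗ[ℝ] EuclideanSpace ℝ (Fin n)}
    (hP1 : ∀ x : E n, ‖x‖ ^ 2 = ⟪ν, x⟫_ℝ ^ 2 + ‖P x‖ ^ 2)
    (hP2 : MeasurePreserving (fun x : E n => (⟪ν, x⟫_ℝ, P x)) volume
      ((volume : Measure ℝ).prod (volume : Measure (EuclideanSpace ℝ (Fin n)))))
    {ρ δ : ℝ} (hδ : 0 ≤ δ) {K : Set (E n)} (hK : IsCompact K)
    (hKC : K ⊆ Cset u a b ν ρ (δ * ‖a - b‖))
    {h : E n} (hh : 0 < ‖h‖) (h3 : 3 * ‖h‖ ≤ ρ) :
    volume (P '' K) * ‖a - b‖ₑ ^ q * ENNReal.ofReal ⟪ν, h⟫_ℝ ≤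
      (∫⁻ x in thickening (2 * ‖h‖) K, ‖u (x + h) - u x‖ₑ ^ q) +
      volume (P '' K) * ‖a - b‖ₑ ^ q * (Cq n q * ENNReal.ofReal δ * ‖h‖ₑ) := by
  have key := fubini_local hum hq hab hν hP1 hP2 hK hKC hh h3
  have hW0 := W_pos n hh
  have hWt := W_top n ‖h‖
  have hs : 0 < ‖a - b‖ := norm_pos_iff.mpr (sub_ne_zero.mpr hab)
  have herr : ENNReal.ofReal (q * ‖a - b‖ ^ (q - 1)) *
        (2 * ENNReal.ofReal (δ * ‖a - b‖ * (3 * ‖h‖) ^ (n + 1)))
      = W n ‖h‖ * (‖a - b‖ₑ ^ q * (Cq n q * ENNReal.ofReal δ * ‖h‖ₑ)) := by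
    have e1 : ‖a - b‖ₑ ^ q = ENNReal.ofReal (‖a - b‖ * ‖a - b‖ ^ (q - 1)) := by
      rw [← ofReal_norm, ENNReal.ofReal_rpow_of_nonneg (norm_nonneg _) (by linarith),
        ← Real.rpow_one_add' hs.le (by linarith)]
      congr 2; ring
    have e2 : W n ‖h‖ * Cq n q = ENNReal.ofReal (‖h‖ ^ n * (2 * q * 3 ^ (n + 1))) := by
      rw [W_scale n hh, Cq, mul_assoc, ENNReal.mul_div_cancel (W_pos n one_pos) (W_top n 1),
        ← ENNReal.ofReal_mul (by positivity)]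
    have e3 : W n ‖h‖ * (‖a - b‖ₑ ^ q * (Cq n q * ENNReal.ofReal δ * ‖h‖ₑ))
        = (W n ‖h‖ * Cq n q) * (‖a - b‖ₑ ^ q * (ENNReal.ofReal δ * ‖h‖ₑ)) := by ring
    have e4 : 2 * ENNReal.ofReal (δ * ‖a - b‖ * (3 * ‖h‖) ^ (n + 1))
        = ENNReal.ofReal (2 * (δ * ‖a - b‖ * (3 * ‖h‖) ^ (n + 1))) := by
      rw [ENNReal.ofReal_mul (by norm_num : (0 : ℝ) ≤ 2)]; simp
    have hq0 : 0 ≤ q := by linarith
    rw [e3, e2, e1, e4, ← ofReal_norm h, ← ENNReal.ofReal_mul hδ, ← ENNReal.ofReal_mul (by positivity),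
      ← ENNReal.ofReal_mul (by positivity), ← ENNReal.ofReal_mul (by positivity)]
    congr 1
    ring
  rw [herr] at key
  rw [← ENNReal.mul_le_mul_iff_right hW0 hWt]
  calc W n ‖h‖ * (volume (P '' K) * ‖a - b‖ₑ ^ q * ENNReal.ofReal ⟪ν, h⟫_ℝ)
      = volume (P '' K) * (‖a - b‖ₑ ^ q * (ENNReal.ofReal ⟪ν, h⟫_ℝ * W n ‖h‖)) := by ring
    _ ≤ _ := key
    _ = _ := by ring

theorem local_ineq {u : E n → F d} (hum : StronglyMeasurable u) {q : ℝ} (hq : 1 ≤ q) {a b : F d}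
    (hab : a ≠ b) {ν : E n} (hν : ‖ν‖ = 1) {P : E n →ₗ[ℝ] EuclideanSpace ℝ (Fin n)}
    (hP1 : ∀ x : E n, ‖x‖ ^ 2 = ⟪ν, x⟫_ℝ ^ 2 + ‖P x‖ ^ 2)
    (hP2 : MeasurePreserving (fun x : E n => (⟪ν, x⟫_ℝ, P x)) volume
      ((volume : Measure ℝ).prod (volume : Measure (EuclideanSpace ℝ (Fin n)))))
    {ρ δ : ℝ} (hδ : 0 ≤ δ) {K : Set (E n)} (hK : IsCompact K)
    (hKC : K ⊆ Cset u a b ν ρ (δ * ‖a - b‖))
    {h : E n} (hh : 0 < ‖h‖) (h3 : 3 * ‖h‖ ≤ ρ) :
    volume (P '' K) * ‖a - b‖ₑ ^ q * ‖⟪ν, h⟫_ℝ‖ₑ ≤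
      (∫⁻ x in thickening (2 * ‖h‖) K, ‖u (x + h) - u x‖ₑ ^ q) +
      volume (P '' K) * ‖a - b‖ₑ ^ q * (Cq n q * ENNReal.ofReal δ * ‖h‖ₑ) := by
  rcases le_total 0 ⟪ν, h⟫_ℝ with ht | ht
  · rw [Real.enorm_of_nonneg ht]
    exact local_ineq_pos hum hq hab hν hP1 hP2 hδ hK hKC hh h3
  · have e : ‖⟪ν, h⟫_ℝ‖ₑ = ENNReal.ofReal ⟪-ν, h⟫_ℝ := by
      rw [inner_neg_left, ← Real.enorm_of_nonneg (by linarith), enorm_neg]
    have hP1' : ∀ x : E n, ‖x‖ ^ 2 = ⟪-ν, x⟫_ℝ ^ 2 + ‖P x‖ ^ 2 := by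
      intro x; rw [inner_neg_left, neg_sq]; exact hP1 x
    have hP2' : MeasurePreserving (fun x : E n => (⟪-ν, x⟫_ℝ, P x)) volume
      ((volume : Measure ℝ).prod (volume : Measure (EuclideanSpace ℝ (Fin n)))) := by
      have hneg : MeasurePreserving (Prod.map (fun t : ℝ => -t) (id : EuclideanSpace ℝ (Fin n) → _))
          ((volume : Measure ℝ).prod (volume : Measure (EuclideanSpace ℝ (Fin n))))
          ((volume : Measure ℝ).prod (volume : Measure (EuclideanSpace ℝ (Fin n)))) :=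
        (Measure.measurePreserving_neg volume).prod (MeasurePreserving.id _)
      have := hneg.comp hP2
      convert this using 1
      ext x : 1
      simp [inner_neg_left]
    have hKC' : K ⊆ Cset u b a (-ν) ρ (δ * ‖b - a‖) := by
      rw [Cset_swap, norm_sub_rev]; exact hKC
    have key := local_ineq_pos hum hq hab.symm (by rwa [norm_neg]) hP1' hP2' hδ hK hKC' hh h3
    have hs : ‖b - a‖ₑ = ‖a - b‖ₑ := by rw [← enorm_neg, neg_sub]
    rw [hs] at key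
    rw [e]
    exact key

end R257.BJ
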