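import Pool.Agent.R257.BJ.Defs

open MeasureTheory Filter Set Metric Topology
open scoped ENNReal NNReal InnerProductSpace

namespace R257.BJ

variable {n d : ℕ}

/-- Minkowski integral inequality with explicit bounds -/
theorem B_mink (q : ℝ) (hq : 1 < q) (ρ m : E n → ℝ≥0∞) (hρ : Measurable ρ) (hm : Measurable m)
    (hm0 : ∀ z, m z ≠ 0) (hm1 : ∀ z, m z ≠ ⊤) (G : E n → E n → ℝ≥0∞)
    (hG : Measurable (Function.uncurry G))
    (hb : ∀ z, ∫⁻ x, G z x ^ q ≤ m z ^ q) :
    ∫⁻ x, (∫⁻ z, ρ z * G z x) ^ q ≤ (∫⁻ z, ρ z * m z) ^ q := by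
  have hq0 : 0 < q := by linarith
  have hpq : (q / (q - 1)).HolderConjugate q := by
    rw [Real.holderConjugate_iff]
    constructor
    · rw [lt_div_iff₀ (by linarith)]; linarith
    · have : q - 1 ≠ 0 := by linarith
      field_simp
      ring
  set p := q / (q - 1) with hp
  have hp0 : 0 < p := hpq.pos
  have hsum : 1 / p + 1 / q = 1 := by
    have := hpq.inv_add_inv_eq_one
    rw [one_div, one_div]; exact this
  have hGx : ∀ x, Measurable (fun z => G z x) := fun x =>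
    hG.comp (measurable_id.prodMk measurable_const)
  have hGz : ∀ z, Measurable (fun x => G z x) := fun z =>
    hG.comp (measurable_const.prodMk measurable_id)
  have key : ∀ x, (∫⁻ z, ρ z * G z x) ^ q ≤
      (∫⁻ z, ρ z * m z) ^ (q - 1) * ∫⁻ z, ρ z * m z ^ (1 - q) * G z x ^ q := by
    intro x
    have h1 := ENNReal.lintegral_mul_le_Lp_mul_Lq (volume : Measure (E n)) hpq
      (f := fun z => (ρ z * m z) ^ (1 / p))
      (g := fun z => (ρ z * m z ^ (1 - q) * G z x ^ q) ^ (1 / q))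
      ((hρ.mul hm).pow_const _).aemeasurable
      (((hρ.mul (hm.pow_const _)).mul ((hGx x).pow_const _)).pow_const _).aemeasurable
    have e1 : ∀ z, ((fun z => (ρ z * m z) ^ (1 / p)) *
        (fun z => (ρ z * m z ^ (1 - q) * G z x ^ q) ^ (1 / q))) z = ρ z * G z x := by
      intro z
      simp only [Pi.mul_apply]
      rw [ENNReal.mul_rpow_of_nonneg _ _ (by positivity), ENNReal.mul_rpow_of_nonneg _ _ (by positivity),
        ENNReal.mul_rpow_of_nonneg _ _ (by positivity), ← ENNReal.rpow_mul, ← ENNReal.rpow_mul]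
      have h2 : ρ z ^ (1 / p) * m z ^ (1 / p) * (ρ z ^ (1 / q) * m z ^ ((1 - q) * (1 / q)) *
          G z x ^ (q * (1 / q))) = (ρ z ^ (1 / p) * ρ z ^ (1 / q)) *
          (m z ^ (1 / p) * m z ^ ((1 - q) * (1 / q))) * G z x ^ (q * (1 / q)) := by ring
      rw [h2, ← ENNReal.rpow_add_of_nonneg _ _ (by positivity) (by positivity), hsum,
        ENNReal.rpow_one, ← ENNReal.rpow_add _ _ (hm0 z) (hm1 z)]
      have h3 : 1 / p + (1 - q) * (1 / q) = 0 := by
        have : (1 - q) * (1 / q) = 1 / q - 1 := by field_simp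
        rw [this]; linarith
      rw [h3, ENNReal.rpow_zero, mul_one, mul_one_div_cancel hq0.ne', ENNReal.rpow_one]
    have e2 : ∀ z, ((ρ z * m z) ^ (1 / p)) ^ p = ρ z * m z := by
      intro z; rw [← ENNReal.rpow_mul, one_div_mul_cancel hp0.ne', ENNReal.rpow_one]
    have e3 : ∀ z, ((ρ z * m z ^ (1 - q) * G z x ^ q) ^ (1 / q)) ^ q
        = ρ z * m z ^ (1 - q) * G z x ^ q := by
      intro z; rw [← ENNReal.rpow_mul, one_div_mul_cancel hq0.ne', ENNReal.rpow_one]
    rw [lintegral_congr e1] at h1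
    simp only [e2, e3] at h1
    calc (∫⁻ z, ρ z * G z x) ^ q ≤ ((∫⁻ z, ρ z * m z) ^ (1 / p) *
          (∫⁻ z, ρ z * m z ^ (1 - q) * G z x ^ q) ^ (1 / q)) ^ q :=
          ENNReal.rpow_le_rpow h1 hq0.le
      _ = _ := by
        rw [ENNReal.mul_rpow_of_nonneg _ _ hq0.le, ← ENNReal.rpow_mul, ← ENNReal.rpow_mul,
          one_div_mul_cancel hq0.ne', ENNReal.rpow_one]
        congr 2
        rw [hp]; field_simp
  have hswap : ∫⁻ x, ∫⁻ z, ρ z * m z ^ (1 - q) * G z x ^ q =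
      ∫⁻ z, ∫⁻ x, ρ z * m z ^ (1 - q) * G z x ^ q := by
    apply lintegral_lintegral_swap
    apply Measurable.aemeasurable
    have h1 : Measurable (fun p : E n × E n => ρ p.2 * m p.2 ^ (1 - q)) :=
      (hρ.comp measurable_snd).mul ((hm.comp measurable_snd).pow_const _)
    have h2 : Measurable (fun p : E n × E n => G p.2 p.1 ^ q) :=
      (hG.comp measurable_swap).pow_const _
    exact h1.mul h2
  calc ∫⁻ x, (∫⁻ z, ρ z * G z x) ^ q
      ≤ ∫⁻ x, (∫⁻ z, ρ z * m z) ^ (q - 1) * ∫⁻ z, ρ z * m z ^ (1 - q) * G z x ^ q :=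
        lintegral_mono key
    _ = (∫⁻ z, ρ z * m z) ^ (q - 1) * ∫⁻ x, ∫⁻ z, ρ z * m z ^ (1 - q) * G z x ^ q := by
        apply lintegral_const_mul
        apply Measurable.lintegral_prod_right'
          (f := fun p : E n × E n => ρ p.2 * m p.2 ^ (1 - q) * G p.2 p.1 ^ q)
        exact ((hρ.comp measurable_snd).mul ((hm.comp measurable_snd).pow_const _)).mul
          ((hG.comp measurable_swap).pow_const _)
    _ = (∫⁻ z, ρ z * m z) ^ (q - 1) * ∫⁻ z, ∫⁻ x, ρ z * m z ^ (1 - q) * G z x ^ q := by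
        rw [hswap]
    _ ≤ (∫⁻ z, ρ z * m z) ^ (q - 1) * ∫⁻ z, ρ z * m z := by
        gcongr with z
        rw [lintegral_const_mul _ ((hGz z).pow_const _)]
        calc ρ z * m z ^ (1 - q) * ∫⁻ x, G z x ^ q ≤ ρ z * m z ^ (1 - q) * m z ^ q := by
              gcongr; exact hb z
          _ = ρ z * m z := by
              rw [mul_assoc, ← ENNReal.rpow_add _ _ (hm0 z) (hm1 z)]
              simp
    _ = (∫⁻ z, ρ z * m z) ^ q := by
        have : (∫⁻ z, ρ z * m z) ^ q = (∫⁻ z, ρ z * m z) ^ ((q - 1) + 1) := by congr 1; ring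
        rw [this, ENNReal.rpow_add_of_nonneg _ _ (by linarith) (by norm_num), ENNReal.rpow_one]

/-- `B^q ≤ A^q + q B^{q-1} e` if `B ≤ A + e`. -/
theorem B_pow (q : ℝ) (hq : 1 < q) (A B e : ℝ≥0∞) (h : B ≤ A + e) (hB : B ≠ ⊤) :
    B ^ q ≤ A ^ q + ENNReal.ofReal q * B ^ (q - 1) * e := by
  have hq0 : 0 < q := by linarith
  rcases le_total B A with hBA | hAB
  · exact le_trans (ENNReal.rpow_le_rpow hBA hq0.le) le_self_add
  have hA : A ≠ ⊤ := ne_top_of_le_ne_top hB hAB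
  by_cases hB0 : B = 0
  · rw [hB0, ENNReal.zero_rpow_of_pos hq0]; exact zero_le
  have hBp : 0 < B := pos_iff_ne_zero.mpr hB0
  -- B - A ≤ e
  have he : B - A ≤ e := tsub_le_iff_left.mpr h
  refine le_trans ?_ (add_le_add le_rfl (mul_le_mul le_rfl he (by positivity) (by positivity)))
  lift B to ℝ≥0 using hB
  lift A to ℝ≥0 using hA
  have hB0' : 0 < B := by exact_mod_cast hBp
  have hAB' : A ≤ B := by exact_mod_cast hAB
  have h1 : (B : ℝ) ^ q ≤ (A : ℝ) ^ q + q * (B : ℝ) ^ (q - 1) * ((B : ℝ) - A) := by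
    have hb : (0 : ℝ) < B := by exact_mod_cast hB0'
    have hs : (-1 : ℝ) ≤ ((A : ℝ) - B) / B := by
      rw [le_div_iff₀ hb]
      have : (0 : ℝ) ≤ A := (NNReal.coe_nonneg A)
      linarith
    have h2 := one_add_mul_self_le_rpow_one_add hs hq.le
    have h3 : 1 + ((A : ℝ) - B) / B = A / B := by field_simp; ring
    rw [h3, Real.div_rpow (NNReal.coe_nonneg A) hb.le] at h2
    have h4 : (0 : ℝ) < (B : ℝ) ^ q := Real.rpow_pos_of_pos hb _
    rw [le_div_iff₀ h4] at h2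
    have h5 : (B : ℝ) ^ (q - 1) = (B : ℝ) ^ q / B := by
      rw [Real.rpow_sub_one hb.ne']
    rw [h5]
    have h6 : (1 + q * (((A : ℝ) - B) / B)) * (B : ℝ) ^ q =
      (B : ℝ) ^ q - q * ((B : ℝ) ^ q / B) * ((B : ℝ) - A) := by field_simp; ring
    linarith
  have h2 : ENNReal.ofReal ((B : ℝ) ^ q) ≤
      ENNReal.ofReal ((A : ℝ) ^ q + q * (B : ℝ) ^ (q - 1) * ((B : ℝ) - A)) :=
    ENNReal.ofReal_le_ofReal h1
  have hBAnn : (0 : ℝ) ≤ (B : ℝ) - A := sub_nonneg.mpr (by exact_mod_cast hAB')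
  rw [ENNReal.ofReal_add (Real.rpow_nonneg (NNReal.coe_nonneg A) _)
    (mul_nonneg (mul_nonneg hq0.le (Real.rpow_nonneg (NNReal.coe_nonneg B) _)) hBAnn),
    ENNReal.ofReal_mul (mul_nonneg hq0.le (Real.rpow_nonneg (NNReal.coe_nonneg B) _)),
    ENNReal.ofReal_mul hq0.le, ← ENNReal.ofReal_rpow_of_nonneg (NNReal.coe_nonneg B) hq0.le,
    ← ENNReal.ofReal_rpow_of_nonneg (NNReal.coe_nonneg A) hq0.le,
    ← ENNReal.ofReal_rpow_of_nonneg (NNReal.coe_nonneg B) (by linarith), ENNReal.ofReal_sub _ (NNReal.coe_nonneg A)] at h2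
  simpa using h2

theorem B_liminf {α : Type*} {l : Filter α} [l.NeBot] (a b : α → ℝ≥0∞)
    (h : ∀ δ : ℝ≥0∞, 0 < δ → ∀ᶠ x in l, a x ≤ b x + δ) : liminf a l ≤ liminf b l := by
  refine ENNReal.le_of_forall_pos_le_add ?_
  intro δ hδ hb
  have hδ' : (0 : ℝ≥0∞) < ((δ / 2 : ℝ≥0) : ℝ≥0∞) := by
    have : 0 < δ / 2 := by positivity
    exact_mod_cast this
  have h1 : liminf b l < liminf b l + ((δ / 2 : ℝ≥0) : ℝ≥0∞) :=
    ENNReal.lt_add_right hb.ne hδ'.ne'
  have h2 : ∃ᶠ x in l, b x < liminf b l + ((δ / 2 : ℝ≥0) : ℝ≥0∞) :=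
    frequently_lt_of_liminf_lt (by isBoundedDefault) h1
  have h3 := (h2.and_eventually (h _ hδ'))
  apply liminf_le_of_frequently_le'
  refine h3.mono ?_
  rintro x ⟨hx1, hx2⟩
  calc a x ≤ b x + ((δ / 2 : ℝ≥0) : ℝ≥0∞) := hx2
    _ ≤ (liminf b l + ((δ / 2 : ℝ≥0) : ℝ≥0∞)) + ((δ / 2 : ℝ≥0) : ℝ≥0∞) := by gcongr
    _ = liminf b l + δ := by
      rw [add_assoc, ← ENNReal.coe_add, add_halves]


theorem B_eLp (q : ℝ) (hq : 1 < q) (f : E n → F d) :
    eLpNorm f (ENNReal.ofReal q) volume ^ q = ∫⁻ x, ‖f x‖ₑ ^ q := by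
  have hq0 : 0 < q := by linarith
  rw [eLpNorm_eq_lintegral_rpow_enorm_toReal (by simpa using hq0) ENNReal.ofReal_ne_top,
    ENNReal.toReal_ofReal hq0.le, ← ENNReal.rpow_mul, one_div_mul_cancel hq0.ne', ENNReal.rpow_one]

theorem B_meas (u : E n → F d) (hu : StronglyMeasurable u) (k : E n) :
    StronglyMeasurable (fun x => u (x + k) - u x) :=
  (hu.comp_measurable (measurable_id.add_const k)).sub hu

theorem B_D (q : ℝ) (hq : 1 < q) (u : E n → F d) (hu : StronglyMeasurable u) (k l : E n) :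
    eLpNorm (fun x => (u (x + l + k) - u (x + l)) - (u (x + k) - u x)) (ENNReal.ofReal q) volume ≤
      2 * Phi q u k ^ (1 / q) := by
  have hq0 : 0 < q := by linarith
  have h0 : ENNReal.ofReal q ≠ 0 := by simpa using hq0
  have hD : eLpNorm (fun x => u (x + k) - u x) (ENNReal.ofReal q) volume = Phi q u k ^ (1 / q) := by
    rw [eLpNorm_eq_lintegral_rpow_enorm_toReal h0 ENNReal.ofReal_ne_top,
      ENNReal.toReal_ofReal hq0.le, Phi]
  have hD' : eLpNorm (fun x => u (x + l + k) - u (x + l)) (ENNReal.ofReal q) volume =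
      Phi q u k ^ (1 / q) := by
    rw [← hD, eLpNorm_eq_lintegral_rpow_enorm_toReal h0 ENNReal.ofReal_ne_top,
      eLpNorm_eq_lintegral_rpow_enorm_toReal h0 ENNReal.ofReal_ne_top]
    congr 1
    exact lintegral_add_right_eq_self
      (fun x => ‖u (x + k) - u x‖ₑ ^ (ENNReal.ofReal q).toReal) l
  have h1 : (1 : ℝ≥0∞) ≤ ENNReal.ofReal q := by
    rw [← ENNReal.ofReal_one]; exact ENNReal.ofReal_le_ofReal hq.le
  have h2 := eLpNorm_sub_le (μ := (volume : Measure (E n)))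
    (f := fun x => u (x + l + k) - u (x + l)) (g := fun x => u (x + k) - u x)
    (((B_meas u hu k).comp_measurable (measurable_id.add_const l)).aestronglyMeasurable)
    (B_meas u hu k).aestronglyMeasurable h1
  rw [hD, hD'] at h2
  rw [two_mul]
  exact h2

/-- weights -/
noncomputable def kap (t : ℝ) (z : E n) : ℝ≥0∞ := ENNReal.ofReal (min 1 (t * (‖z‖ + 1)))

noncomputable def theta (q : ℝ) (η : E n → ℝ) (t : ℝ) : ℝ≥0∞ := ∫⁻ z, ‖η z‖ₑ * kap t z ^ (1 / q)

theorem B_gz (q : ℝ) (hq : 1 < q) (u : E n → F d) (hu : StronglyMeasurable u) (C : ℝ)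
    (hC : ∀ h : E n, Phi q u h ≤ ENNReal.ofReal C * ‖h‖ₑ) (ε : ℝ) (hε : 0 < ε) (h : E n)
    (hh : h ≠ 0) (z : E n) :
    ∫⁻ x, ‖(u (x - ε • z + h) - u (x - ε • z)) - (u (x + h) - u x)‖ₑ ^ q ≤
      (2 * (ENNReal.ofReal C * (‖h‖ₑ * kap (ε / ‖h‖) z)) ^ (1 / q)) ^ q := by
  have hq0 : 0 < q := by linarith
  have hh' : 0 < ‖h‖ := norm_pos_iff.mpr hh
  have h1 := B_D q hq u hu h (-(ε • z))
  have h2 := B_D q hq u hu (-(ε • z)) h
  simp only [← sub_eq_add_neg] at h1 h2
  have e : (fun x => u (x + h - ε • z) - u (x + h) - (u (x - ε • z) - u x)) =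
      (fun x => (u (x - ε • z + h) - u (x - ε • z)) - (u (x + h) - u x)) := by
    funext x
    have : x + h - ε • z = x - ε • z + h := by abel
    rw [this]; abel
  rw [e] at h2
  rw [← B_eLp q hq]
  apply ENNReal.rpow_le_rpow _ hq0.le
  have h3 : ENNReal.ofReal C * (‖h‖ₑ * kap (ε / ‖h‖) z) =
      ENNReal.ofReal C * ENNReal.ofReal (min ‖h‖ (ε * (‖z‖ + 1))) := by
    congr 1
    rw [kap, ← ofReal_norm, ← ENNReal.ofReal_mul hh'.le, mul_min_of_nonneg _ _ hh'.le,
      mul_one]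
    congr 2
    field_simp
  rw [h3]
  rcases le_total ‖h‖ (ε * (‖z‖ + 1)) with hc | hc
  · rw [min_eq_left hc, ofReal_norm]
    refine h1.trans ?_
    gcongr
    exact hC h
  · rw [min_eq_right hc]
    refine h2.trans ?_
    gcongr
    refine (hC _).trans ?_
    gcongr
    rw [enorm_neg, ← ofReal_norm, norm_smul, Real.norm_eq_abs, abs_of_pos hε]
    apply ENNReal.ofReal_le_ofReal
    have := norm_nonneg z
    nlinarith

theorem B_kap_pos (t : ℝ) (ht : 0 < t) (z : E n) : kap t z ≠ 0 := by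
  rw [kap, Ne, ENNReal.ofReal_eq_zero, not_le]
  have := norm_nonneg z
  positivity

theorem B_kap_top (t : ℝ) (z : E n) : kap t z ≠ ⊤ := ENNReal.ofReal_ne_top

theorem B_kap_meas (t : ℝ) : Measurable (fun z : E n => kap t z) := by
  unfold kap; fun_prop

theorem B_young (q : ℝ) (hq : 1 < q) (u : E n → F d) (hu : StronglyMeasurable u)
    (hmem : MemLp u (ENNReal.ofReal q) volume) (η : E n → ℝ) (hη : Measurable η)
    (hηi : Integrable η volume) (ε : ℝ) :
    ∀ᵐ x : E n, Integrable (fun z => η z • u (x - ε • z)) volume := by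
  have hq0 : 0 < q := by linarith
  have hfin : eLpNorm u (ENNReal.ofReal q) volume ≠ ⊤ := hmem.2.ne
  have hjm : Measurable (fun p : E n × E n => u (p.2 - ε • p.1)) :=
    hu.measurable.comp (measurable_snd.sub (measurable_fst.const_smul ε))
  have h1 := B_mink q hq (fun z => ‖η z‖ₑ) (fun _ => eLpNorm u (ENNReal.ofReal q) volume + 1)
    hη.enorm measurable_const (by intro z; simp) (by intro z; simp [hfin])
    (fun z x => ‖u (x - ε • z)‖ₑ) hjm.enorm
    (by
      intro z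
      calc ∫⁻ x, ‖u (x - ε • z)‖ₑ ^ q = ∫⁻ x, ‖u x‖ₑ ^ q :=
            lintegral_sub_right_eq_self (fun x => ‖u x‖ₑ ^ q) (ε • z)
        _ = eLpNorm u (ENNReal.ofReal q) volume ^ q := (B_eLp q hq u).symm
        _ ≤ _ := ENNReal.rpow_le_rpow le_self_add hq0.le)
  have h2 : (∫⁻ z, ‖η z‖ₑ * (eLpNorm u (ENNReal.ofReal q) volume + 1)) ^ q < ⊤ := by
    apply ENNReal.rpow_lt_top_of_nonneg hq0.le
    rw [lintegral_mul_const _ hη.enorm]
    exact ENNReal.mul_ne_top hηi.2.ne (by simp [hfin])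
  have h3 : ∀ᵐ x : E n, (∫⁻ z, ‖η z‖ₑ * ‖u (x - ε • z)‖ₑ) ^ q < ⊤ := by
    apply ae_lt_top _ (lt_of_le_of_lt h1 h2).ne
    apply Measurable.pow_const
    apply Measurable.lintegral_prod_right' (f := fun p : E n × E n => ‖η p.2‖ₑ * ‖u (p.1 - ε • p.2)‖ₑ)
    exact (hη.enorm.comp measurable_snd).mul (hjm.comp measurable_swap).enorm
  filter_upwards [h3] with x hx
  refine ⟨?_, ?_⟩
  · have : Measurable (fun z => u (x - ε • z)) :=
      hjm.comp (measurable_id.prodMk measurable_const)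
    exact (hη.smul this).aestronglyMeasurable
  · rw [hasFiniteIntegral_iff_enorm]
    simp only [enorm_smul]
    by_contra hcon
    rw [not_lt, top_le_iff] at hcon
    rw [hcon, ENNReal.top_rpow_of_pos hq0] at hx
    exact lt_irrefl _ hx

theorem B_key (q : ℝ) (hq : 1 < q) (u : E n → F d) (hu : StronglyMeasurable u)
    (hmem : MemLp u (ENNReal.ofReal q) volume) (C : ℝ) (hCpos : 0 < C)
    (hC : ∀ h : E n, Phi q u h ≤ ENNReal.ofReal C * ‖h‖ₑ) (η : E n → ℝ) (hη : Measurable η)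
    (hηi : Integrable η volume) (hw : ∀ ε : ℝ, StronglyMeasurable (moll η ε u))
    (ε : ℝ) (hε : 0 < ε) (h : E n) (hh : h ≠ 0) :
    ‖∫ z, η z‖ₑ ^ q * Phi q u h ≤ Phi q (moll η ε u) h +
      ENNReal.ofReal q * ‖∫ z, η z‖ₑ ^ (q - 1) * 2 * ENNReal.ofReal C * ‖h‖ₑ *
        theta q η (ε / ‖h‖) := by
  have hq0 : 0 < q := by linarith
  have hh' : 0 < ‖h‖ := norm_pos_iff.mpr hh
  set c := ∫ z, η z with hc
  set w := moll η ε u with hwdef
  have hjm : Measurable (fun p : E n × E n => u (p.2 - ε • p.1)) :=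
    hu.measurable.comp (measurable_snd.sub (measurable_fst.const_smul ε))
  have hjm2 : Measurable (fun p : E n × E n =>
      (u (p.2 - ε • p.1 + h) - u (p.2 - ε • p.1)) - (u (p.2 + h) - u p.2)) := by
    have h1 : Measurable (fun x => u (x + h) - u x) := (B_meas u hu h).measurable
    exact (h1.comp (measurable_snd.sub (measurable_fst.const_smul ε))).sub (h1.comp measurable_snd)
  have hae := B_young q hq u hu hmem η hη hηi ε
  have hae2 : ∀ᵐ x : E n, Integrable (fun z => η z • u (x + h - ε • z)) volume :=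
    (measurePreserving_add_right (volume : Measure (E n)) h).quasiMeasurePreserving.ae hae
  -- pointwise
  have hpt : ∀ᵐ x : E n, ‖(w (x + h) - w x) - c • (u (x + h) - u x)‖ₑ ≤
      ∫⁻ z, ‖η z‖ₑ * ‖(u (x - ε • z + h) - u (x - ε • z)) - (u (x + h) - u x)‖ₑ := by
    filter_upwards [hae, hae2] with x hx1 hx2
    have e1 : (w (x + h) - w x) - c • (u (x + h) - u x) =
        ∫ z, η z • ((u (x - ε • z + h) - u (x - ε • z)) - (u (x + h) - u x)) := by
      have e2 : c • (u (x + h) - u x) = ∫ z, η z • (u (x + h) - u x) := by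
        rw [integral_smul_const]
      have e6 := integral_sub (hx2.sub hx1) (hηi.smul_const (u (x + h) - u x))
      simp only [Pi.sub_apply] at e6
      rw [e2, hwdef, moll, moll, ← integral_sub hx2 hx1, ← e6]
      apply integral_congr_ae
      filter_upwards with z
      have e3 : x + h - ε • z = x - ε • z + h := by abel
      simp only [e3, smul_sub]
    rw [e1]
    refine (enorm_integral_le_lintegral_enorm _).trans ?_
    simp only [enorm_smul]
    exact le_rfl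
  have hm1 : ∀ z : E n, ENNReal.ofReal C * (‖h‖ₑ * kap (ε / ‖h‖) z) ≠ 0 := by
    intro z
    refine mul_ne_zero (by simpa using hCpos) (mul_ne_zero (by simpa using hh)
      (B_kap_pos _ (by positivity) z))
  have hm2 : ∀ z : E n, ENNReal.ofReal C * (‖h‖ₑ * kap (ε / ‖h‖) z) ≠ ⊤ := by
    intro z
    exact ENNReal.mul_ne_top ENNReal.ofReal_ne_top (ENNReal.mul_ne_top enorm_ne_top
      (B_kap_top _ z))
  have hM := B_mink q hq (fun z => ‖η z‖ₑ)
    (fun z => 2 * (ENNReal.ofReal C * (‖h‖ₑ * kap (ε / ‖h‖) z)) ^ (1 / q))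
    hη.enorm ((((B_kap_meas _).const_mul _).const_mul _).pow_const _ |>.const_mul _)
    (by
      intro z
      refine mul_ne_zero (by norm_num) ?_
      rw [Ne, ENNReal.rpow_eq_zero_iff_of_pos (by positivity)]
      exact hm1 z)
    (by
      intro z
      refine ENNReal.mul_ne_top (by norm_num) ?_
      exact ENNReal.rpow_ne_top_of_nonneg (by positivity) (hm2 z))
    (fun z x => ‖(u (x - ε • z + h) - u (x - ε • z)) - (u (x + h) - u x)‖ₑ) hjm2.enorm
    (fun z => B_gz q hq u hu C hC ε hε h hh z)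
  set e := ∫⁻ z, ‖η z‖ₑ * (2 * (ENNReal.ofReal C * (‖h‖ₑ * kap (ε / ‖h‖) z)) ^ (1 / q)) with he
  have heq : e = 2 * (ENNReal.ofReal C * ‖h‖ₑ) ^ (1 / q) * theta q η (ε / ‖h‖) := by
    have hmm : Measurable (fun z : E n => ‖η z‖ₑ * kap (ε / ‖h‖) z ^ (1 / q)) :=
      hη.enorm.mul ((B_kap_meas _).pow_const _)
    rw [theta, ← lintegral_const_mul _ hmm, he]
    apply lintegral_congr
    intro z
    rw [← mul_assoc (ENNReal.ofReal C), ENNReal.mul_rpow_of_nonneg _ _ (by positivity)]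
    ring
  have hE : eLpNorm (fun x => (w (x + h) - w x) - c • (u (x + h) - u x))
      (ENNReal.ofReal q) volume ≤ e := by
    rw [← ENNReal.rpow_le_rpow_iff hq0, B_eLp q hq]
    refine le_trans ?_ hM
    apply lintegral_mono_ae
    filter_upwards [hpt] with x hx
    exact ENNReal.rpow_le_rpow hx hq0.le
  have h1 : (1 : ℝ≥0∞) ≤ ENNReal.ofReal q := by
    rw [← ENNReal.ofReal_one]; exact ENNReal.ofReal_le_ofReal hq.le
  have hwm := B_meas w (hw ε) h
  have hum := B_meas u hu h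
  have htri : eLpNorm (fun x => c • (u (x + h) - u x)) (ENNReal.ofReal q) volume ≤
      eLpNorm (fun x => w (x + h) - w x) (ENNReal.ofReal q) volume + e := by
    have h2 := eLpNorm_sub_le (μ := (volume : Measure (E n)))
      (f := fun x => w (x + h) - w x) (g := fun x => (w (x + h) - w x) - c • (u (x + h) - u x))
      hwm.aestronglyMeasurable (hwm.sub (hum.const_smul c)).aestronglyMeasurable h1
    have e4 : ((fun x => w (x + h) - w x) - fun x => (w (x + h) - w x) - c • (u (x + h) - u x)) =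
        (fun x => c • (u (x + h) - u x)) := by
      funext x; simp
    rw [e4] at h2
    exact h2.trans (by gcongr)
  have hB : eLpNorm (fun x => c • (u (x + h) - u x)) (ENNReal.ofReal q) volume =
      ‖c‖ₑ * Phi q u h ^ (1 / q) := by
    have : (fun x => c • (u (x + h) - u x)) = c • (fun x => (u (x + h) - u x)) := rfl
    rw [this, eLpNorm_const_smul]
    congr 1
    rw [eLpNorm_eq_lintegral_rpow_enorm_toReal (by simpa using hq0) ENNReal.ofReal_ne_top,
      ENNReal.toReal_ofReal hq0.le, Phi]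
  have hPhifin : Phi q u h ≠ ⊤ :=
    ne_top_of_le_ne_top (ENNReal.mul_ne_top ENNReal.ofReal_ne_top enorm_ne_top) (hC h)
  have hBle : ‖c‖ₑ * Phi q u h ^ (1 / q) ≤ ‖c‖ₑ * (ENNReal.ofReal C * ‖h‖ₑ) ^ (1 / q) := by
    gcongr; exact hC h
  rw [hB] at htri
  have hfin := B_pow q hq _ _ e htri (ENNReal.mul_ne_top enorm_ne_top
    (ENNReal.rpow_ne_top_of_nonneg (by positivity) hPhifin))
  have e5 : (‖c‖ₑ * Phi q u h ^ (1 / q)) ^ q = ‖c‖ₑ ^ q * Phi q u h := by
    rw [ENNReal.mul_rpow_of_nonneg _ _ hq0.le, ← ENNReal.rpow_mul, one_div_mul_cancel hq0.ne',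
      ENNReal.rpow_one]
  rw [e5, B_eLp q hq] at hfin
  refine hfin.trans ?_
  rw [Phi, heq]
  refine add_le_add le_rfl ?_
  calc ENNReal.ofReal q * (‖c‖ₑ * Phi q u h ^ (1 / q)) ^ (q - 1) *
        (2 * (ENNReal.ofReal C * ‖h‖ₑ) ^ (1 / q) * theta q η (ε / ‖h‖))
      ≤ ENNReal.ofReal q * (‖c‖ₑ * (ENNReal.ofReal C * ‖h‖ₑ) ^ (1 / q)) ^ (q - 1) *
        (2 * (ENNReal.ofReal C * ‖h‖ₑ) ^ (1 / q) * theta q η (ε / ‖h‖)) := by
        have := ENNReal.rpow_le_rpow hBle (show 0 ≤ q - 1 by linarith)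
        gcongr
    _ = ENNReal.ofReal q * ‖c‖ₑ ^ (q - 1) * 2 * (((ENNReal.ofReal C * ‖h‖ₑ) ^ (1 / q)) ^ (q - 1) *
        (ENNReal.ofReal C * ‖h‖ₑ) ^ (1 / q)) * theta q η (ε / ‖h‖) := by
        rw [ENNReal.mul_rpow_of_nonneg _ _ (show 0 ≤ q - 1 by linarith)]
        ring
    _ = ENNReal.ofReal q * ‖c‖ₑ ^ (q - 1) * 2 * (ENNReal.ofReal C * ‖h‖ₑ) *
        theta q η (ε / ‖h‖) := by
        congr 2
        rw [← ENNReal.rpow_mul, ← ENNReal.rpow_add_of_nonneg _ _
          (mul_nonneg (by positivity) (by linarith)) (by positivity)]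
        have : 1 / q * (q - 1) + 1 / q = 1 := by field_simp; ring
        rw [this, ENNReal.rpow_one]
    _ = _ := by ring


theorem B_moll_meas (u : E n → F d) (hu : StronglyMeasurable u) (η : E n → ℝ) (hη : Measurable η)
    (ε : ℝ) : StronglyMeasurable (moll η ε u) := by
  have h : StronglyMeasurable (Function.uncurry fun (x z : E n) => η z • u (x - ε • z)) := by
    have h1 : StronglyMeasurable (fun p : E n × E n => u (p.1 - ε • p.2)) :=
      hu.comp_measurable (measurable_fst.sub (measurable_snd.const_smul ε))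
    have h2 : StronglyMeasurable (fun p : E n × E n => η p.2) :=
      (hη.comp measurable_snd).stronglyMeasurable
    exact h2.smul h1
  exact h.integral_prod_right

theorem B_gag (q : ℝ) (v : E n → F d) (hv : StronglyMeasurable v) :
    gag q v = ∫⁻ h, Phi q v h / ‖h‖ₑ ^ (n + 2) := by
  have h1 : ∀ x : E n, ∫⁻ y, ‖v x - v y‖ₑ ^ q / ‖x - y‖ₑ ^ (n + 2) =
      ∫⁻ h, ‖v (x + h) - v x‖ₑ ^ q / ‖h‖ₑ ^ (n + 2) := by
    intro x
    rw [← lintegral_add_left_eq_self (fun y => ‖v x - v y‖ₑ ^ q / ‖x - y‖ₑ ^ (n + 2)) x]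
    apply lintegral_congr
    intro h
    rw [show x - (x + h) = -h by abel, enorm_neg, ← enorm_neg (v (x + h) - v x), neg_sub]
  unfold gag
  rw [lintegral_congr h1]
  have hm : Measurable (fun p : E n × E n => ‖v (p.1 + p.2) - v p.1‖ₑ ^ q) :=
    ((hv.measurable.comp (measurable_fst.add measurable_snd)).sub
      (hv.measurable.comp measurable_fst)).enorm.pow_const _
  rw [lintegral_lintegral_swap]
  · apply lintegral_congr
    intro h
    simp only [div_eq_mul_inv]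
    have hmh : Measurable (fun x : E n => ‖v (x + h) - v x‖ₑ ^ q) :=
      (B_meas v hv h).measurable.enorm.pow_const _
    rw [lintegral_mul_const _ hmh, Phi]
  · apply Measurable.aemeasurable
    exact hm.div ((measurable_snd.enorm).pow_const _)

theorem B_theta_tendsto (q : ℝ) (hq : 1 < q) (η : E n → ℝ) (hη : Measurable η)
    (hηi : Integrable η volume) :
    Tendsto (fun k : ℕ => theta q η (1 / ((k : ℝ) + 1))) atTop (𝓝 0) := by
  have hq0 : 0 < q := by linarith
  have h0 : (0 : ℝ≥0∞) = ∫⁻ _ : E n, 0 := by simp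
  rw [h0]
  apply tendsto_lintegral_of_dominated_convergence (fun z => ‖η z‖ₑ)
  · intro k
    exact hη.enorm.mul ((B_kap_meas _).pow_const _)
  · intro k
    filter_upwards with z
    have : kap (1 / ((k : ℝ) + 1)) z ≤ 1 := by
      rw [kap, ← ENNReal.ofReal_one]
      exact ENNReal.ofReal_le_ofReal (min_le_left _ _)
    calc ‖η z‖ₑ * kap (1 / ((k : ℝ) + 1)) z ^ (1 / q) ≤ ‖η z‖ₑ * 1 := by
          gcongr
          exact ENNReal.rpow_le_one this (by positivity)
      _ = ‖η z‖ₑ := mul_one _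
  · exact hηi.2.ne
  · filter_upwards with z
    have h1 : Tendsto (fun k : ℕ => kap (1 / ((k : ℝ) + 1)) z) atTop (𝓝 0) := by
      have h2 : Tendsto (fun k : ℕ => min 1 (1 / ((k : ℝ) + 1) * (‖z‖ + 1))) atTop
          (𝓝 (min 1 (0 * (‖z‖ + 1)))) :=
        tendsto_const_nhds.min (tendsto_one_div_add_atTop_nhds_zero_nat.mul_const _)
      have h3 := ENNReal.tendsto_ofReal h2
      simpa [kap] using h3
    have h2 : Tendsto (fun k : ℕ => kap (1 / ((k : ℝ) + 1)) z ^ (1 / q)) atTop (𝓝 0) := by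
      have h3 := (ENNReal.continuous_rpow_const (y := 1 / q)).tendsto (0 : ℝ≥0∞)
      rw [ENNReal.zero_rpow_of_pos (by positivity)] at h3
      exact h3.comp h1
    have h3 := ENNReal.Tendsto.const_mul (a := ‖η z‖ₑ) h2 (Or.inr enorm_ne_top)
    simpa using h3

theorem B_theta_mono (q : ℝ) (hq : 1 < q) (η : E n → ℝ) {s t : ℝ} (hst : s ≤ t) :
    theta q η s ≤ theta q η t := by
  have hq0 : 0 < q := by linarith
  unfold theta kap
  gcongr

/-- the main inequality -/
theorem B_main (hS : StmS) (q : ℝ) (hq : 1 < q) (u : E n → F d) (hu : StronglyMeasurable u)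
    (hmem : MemLp u (ENNReal.ofReal q) volume) (C : ℝ) (hCpos : 0 < C)
    (hC : ∀ h : E n, Phi q u h ≤ ENNReal.ofReal C * ‖h‖ₑ) (η : E n → ℝ) (hη : Measurable η)
    (hηi : Integrable η volume) (K : ℝ) (hK : 1 ≤ K) (ε : ℝ) (hε : 0 < ε) (hKε : K * ε ≤ 1) :
    ‖∫ z, η z‖ₑ ^ q * ∫⁻ h in ann n ε 1, Phi q u h / ‖h‖ₑ ^ (n + 2) ≤
      gag q (moll η ε u) +
      ENNReal.ofReal q * ‖∫ z, η z‖ₑ ^ (q - 1) * 2 * ENNReal.ofReal C * theta q η (1 / K) *
        (sigma n * ENNReal.ofReal |Real.log ε|) +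
      ‖∫ z, η z‖ₑ ^ q * (ENNReal.ofReal C * (sigma n * ENNReal.ofReal (Real.log K))) := by
  have hKpos : 0 < K := by linarith
  set c := ∫ z, η z with hc
  set w := moll η ε u with hwdef
  have hwm : StronglyMeasurable w := B_moll_meas u hu η hη ε
  have hsub : ann n ε 1 ⊆ ann n (K * ε) 1 ∪ ann n ε (K * ε) := by
    rintro h ⟨h1, h2⟩
    rcases le_total (K * ε) ‖h‖ with h3 | h3
    · exact Or.inl ⟨h3, h2⟩
    · exact Or.inr ⟨h1, h3⟩
  have hms : ∀ A B : ℝ, MeasurableSet (ann n A B) := by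
    intro A B
    exact (measurableSet_le measurable_const measurable_norm).inter
      (measurableSet_le measurable_norm measurable_const)
  have h1 : ∫⁻ h in ann n ε 1, Phi q u h / ‖h‖ₑ ^ (n + 2) ≤
      (∫⁻ h in ann n (K * ε) 1, Phi q u h / ‖h‖ₑ ^ (n + 2)) +
      ∫⁻ h in ann n ε (K * ε), Phi q u h / ‖h‖ₑ ^ (n + 2) :=
    (lintegral_mono_set hsub).trans (lintegral_union_le _ _ _)
  have hεK : ε ≤ K * ε := by nlinarith
  have h2 : ∫⁻ h in ann n ε (K * ε), Phi q u h / ‖h‖ₑ ^ (n + 2) ≤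
      ENNReal.ofReal C * (sigma n * ENNReal.ofReal (Real.log K)) := by
    have hs := (hS n ε (K * ε) hε hεK).2.1
    have e1 : K * ε / ε = K := by field_simp
    rw [e1] at hs
    rw [← hs, ← lintegral_const_mul]
    · apply lintegral_mono
      intro h
      simp only [div_eq_mul_inv, ← mul_assoc]
      gcongr
      exact hC h
    · exact measurable_enorm.div (measurable_enorm.pow_const _)
  have h3 : ‖c‖ₑ ^ q * (∫⁻ h in ann n (K * ε) 1, Phi q u h / ‖h‖ₑ ^ (n + 2)) ≤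
      gag q w + ENNReal.ofReal q * ‖c‖ₑ ^ (q - 1) * 2 * ENNReal.ofReal C * theta q η (1 / K) *
        (sigma n * ENNReal.ofReal |Real.log ε|) := by
    have hs := (hS n (K * ε) 1 (by positivity) hKε).2.1
    calc ‖c‖ₑ ^ q * (∫⁻ h in ann n (K * ε) 1, Phi q u h / ‖h‖ₑ ^ (n + 2))
        ≤ ∫⁻ h in ann n (K * ε) 1, ‖c‖ₑ ^ q * (Phi q u h / ‖h‖ₑ ^ (n + 2)) :=
          lintegral_const_mul_le _ _
      _ ≤ ∫⁻ h in ann n (K * ε) 1, (Phi q w h / ‖h‖ₑ ^ (n + 2) +
          ENNReal.ofReal q * ‖c‖ₑ ^ (q - 1) * 2 * ENNReal.ofReal C * theta q η (1 / K) *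
            (‖h‖ₑ / ‖h‖ₑ ^ (n + 2))) := by
          apply setLIntegral_mono' (hms _ _)
          intro h hh
          have hhpos : 0 < ‖h‖ := lt_of_lt_of_le (by positivity) hh.1
          have hh0 : h ≠ 0 := norm_pos_iff.mp hhpos
          have hk := B_key q hq u hu hmem C hCpos hC η hη hηi (fun ε => B_moll_meas u hu η hη ε)
            ε hε h hh0
          have hth : theta q η (ε / ‖h‖) ≤ theta q η (1 / K) := by
            apply B_theta_mono q hq
            rw [div_le_div_iff₀ hhpos hKpos]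
            have := hh.1
            linarith
          calc ‖c‖ₑ ^ q * (Phi q u h / ‖h‖ₑ ^ (n + 2))
              = (‖c‖ₑ ^ q * Phi q u h) / ‖h‖ₑ ^ (n + 2) := by rw [mul_div_assoc]
            _ ≤ (Phi q w h + ENNReal.ofReal q * ‖c‖ₑ ^ (q - 1) * 2 * ENNReal.ofReal C * ‖h‖ₑ *
                theta q η (1 / K)) / ‖h‖ₑ ^ (n + 2) := by
                gcongr
                exact hk.trans (by gcongr)
            _ = _ := by
                simp only [div_eq_mul_inv]
                ring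
      _ = (∫⁻ h in ann n (K * ε) 1, Phi q w h / ‖h‖ₑ ^ (n + 2)) +
          ENNReal.ofReal q * ‖c‖ₑ ^ (q - 1) * 2 * ENNReal.ofReal C * theta q η (1 / K) *
            (sigma n * ENNReal.ofReal (Real.log (1 / (K * ε)))) := by
          have hmm : Measurable (fun h : E n => ‖h‖ₑ / ‖h‖ₑ ^ (n + 2)) :=
            measurable_enorm.div (measurable_enorm.pow_const _)
          rw [lintegral_add_right _ (hmm.const_mul _), lintegral_const_mul _ hmm, hs]
      _ ≤ gag q w + ENNReal.ofReal q * ‖c‖ₑ ^ (q - 1) * 2 * ENNReal.ofReal C *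
          theta q η (1 / K) * (sigma n * ENNReal.ofReal |Real.log ε|) := by
          gcongr
          · rw [B_gag q w hwm]
            exact setLIntegral_le_lintegral _ _
          · rw [one_div, Real.log_inv, Real.log_mul hKpos.ne' hε.ne']
            have h5 := Real.log_nonneg hK
            have h6 := neg_abs_le (Real.log ε)
            linarith
  calc ‖c‖ₑ ^ q * ∫⁻ h in ann n ε 1, Phi q u h / ‖h‖ₑ ^ (n + 2)
      ≤ ‖c‖ₑ ^ q * ((∫⁻ h in ann n (K * ε) 1, Phi q u h / ‖h‖ₑ ^ (n + 2)) +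
        ∫⁻ h in ann n ε (K * ε), Phi q u h / ‖h‖ₑ ^ (n + 2)) := by gcongr
    _ ≤ _ := by
      rw [mul_add]
      exact add_le_add h3 (by gcongr)

theorem B_sm (hS : StmS) (q : ℝ) (hq : 1 < q) (u : E n → F d) (hu : StronglyMeasurable u)
    (hmem : MemLp u (ENNReal.ofReal q) volume) (C : ℝ) (hCpos : 0 < C)
    (hC : ∀ h : E n, Phi q u h ≤ ENNReal.ofReal C * ‖h‖ₑ) (η : E n → ℝ) (hη : Measurable η)
    (hηi : Integrable η volume) (δ : ℝ≥0∞) (hδ : 0 < δ) :
    ∀ᶠ ε in 𝓝[>] (0 : ℝ), ‖∫ z, η z‖ₑ ^ q * ((∫⁻ h in ann n ε 1, Phi q u h / ‖h‖ₑ ^ (n + 2)) /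
      ENNReal.ofReal |Real.log ε|) ≤
      gag q (moll η ε u) / ENNReal.ofReal |Real.log ε| + δ := by
  have hq0 : 0 < q := by linarith
  set c := ∫ z, η z with hc
  have hσ : sigma n ≠ ⊤ := (hS n 1 1 one_pos le_rfl).2.2.1
  set M := ENNReal.ofReal q * ‖c‖ₑ ^ (q - 1) * 2 * ENNReal.ofReal C with hM
  have hMtop : M ≠ ⊤ := by
    rw [hM]
    refine ENNReal.mul_ne_top (ENNReal.mul_ne_top (ENNReal.mul_ne_top ENNReal.ofReal_ne_top ?_)
      (by norm_num)) ENNReal.ofReal_ne_top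
    exact ENNReal.rpow_ne_top_of_nonneg (by linarith) enorm_ne_top
  have hδ2 : 0 < δ / 2 := ENNReal.half_pos hδ.ne'
  have ht : Tendsto (fun k : ℕ => M * sigma n * theta q η (1 / ((k : ℝ) + 1))) atTop (𝓝 0) := by
    have := ENNReal.Tendsto.const_mul (a := M * sigma n) (B_theta_tendsto q hq η hη hηi)
      (Or.inr (ENNReal.mul_ne_top hMtop hσ))
    simpa using this
  obtain ⟨k, hk⟩ := ((tendsto_order.1 ht).2 _ hδ2).exists
  set K : ℝ := (k : ℝ) + 1 with hKdef
  have hK1 : 1 ≤ K := by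
    have : (0 : ℝ) ≤ k := Nat.cast_nonneg k
    linarith
  have hKpos : 0 < K := by linarith
  set D := ‖c‖ₑ ^ q * (ENNReal.ofReal C * (sigma n * ENNReal.ofReal (Real.log K))) with hD
  have hDtop : D ≠ ⊤ := by
    rw [hD]
    refine ENNReal.mul_ne_top (ENNReal.rpow_ne_top_of_nonneg hq0.le enorm_ne_top) ?_
    exact ENNReal.mul_ne_top ENNReal.ofReal_ne_top (ENNReal.mul_ne_top hσ ENNReal.ofReal_ne_top)
  have hL : Tendsto (fun ε : ℝ => ENNReal.ofReal |Real.log ε|) (𝓝[>] 0) (𝓝 ⊤) := by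
    apply ENNReal.tendsto_ofReal_atTop.comp
    exact tendsto_abs_atBot_atTop.comp Real.tendsto_log_nhdsGT_zero
  have hDL : Tendsto (fun ε : ℝ => D / ENNReal.ofReal |Real.log ε|) (𝓝[>] 0) (𝓝 0) := by
    have := ENNReal.Tendsto.const_div (a := D) hL (Or.inr hDtop)
    simpa using this
  have hev1 := (tendsto_order.1 hDL).2 _ hδ2
  have hev2 := (tendsto_order.1 hL).1 0 (by simp)
  have hev3 : ∀ᶠ ε in 𝓝[>] (0 : ℝ), ε ∈ Ioo (0 : ℝ) (1 / K) :=
    Ioo_mem_nhdsGT (by positivity)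
  filter_upwards [hev1, hev2, hev3] with ε h1 h2 h3
  have hmain := B_main hS q hq u hu hmem C hCpos hC η hη hηi K hK1 ε h3.1
    (by have := h3.2; rw [lt_div_iff₀ hKpos] at this; linarith)
  rw [← hc] at hmain
  set L := ENNReal.ofReal |Real.log ε| with hLdef
  have hLtop : L ≠ ⊤ := ENNReal.ofReal_ne_top
  rw [← mul_div_assoc]
  calc (‖c‖ₑ ^ q * ∫⁻ h in ann n ε 1, Phi q u h / ‖h‖ₑ ^ (n + 2)) / L
      ≤ (gag q (moll η ε u) + M * theta q η (1 / K) * (sigma n * L) + D) / L := by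
        gcongr
    _ = gag q (moll η ε u) / L + (M * sigma n * theta q η (1 / K)) * (L / L) + D / L := by
        simp only [div_eq_mul_inv]
        ring
    _ ≤ gag q (moll η ε u) / L + δ / 2 + δ / 2 := by
        rw [ENNReal.div_self h2.ne' hLtop, mul_one]
        gcongr
    _ = gag q (moll η ε u) / L + δ := by
        rw [add_assoc, ENNReal.add_halves]

theorem stmB (hS : StmS) : StmB := by
  intro n d q hq u hu C hC0 hC η hη
  have hq0 : 0 < q := by linarith
  set u' := hu.1.mk u with hu'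
  have hu'm : StronglyMeasurable u' := hu.1.stronglyMeasurable_mk
  have huu : u =ᵐ[volume] u' := hu.1.ae_eq_mk
  set η' := hη.1.mk η with hη'
  have hη'm : Measurable η' := hη.1.stronglyMeasurable_mk.measurable
  have hηη : η =ᵐ[volume] η' := hη.1.ae_eq_mk
  have hPhi : ∀ h, Phi q u h = Phi q u' h := by
    intro h
    unfold Phi
    apply lintegral_congr_ae
    have h2 : ∀ᵐ x : E n, u (x + h) = u' (x + h) :=
      (measurePreserving_add_right (volume : Measure (E n)) h).quasiMeasurePreserving.ae huu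
    filter_upwards [huu, h2] with x hx1 hx2
    rw [hx1, hx2]
  have hmoll : ∀ ε : ℝ, 0 < ε → moll η ε u = moll η' ε u' := by
    intro ε hε
    funext x
    unfold moll
    apply integral_congr_ae
    have h2 : ∀ᵐ z : E n, u (x - ε • z) = u' (x - ε • z) := by
      have h3 : ∀ᵐ y : E n, u (x - y) = u' (x - y) :=
        (Measure.measurePreserving_sub_left (volume : Measure (E n)) x).quasiMeasurePreserving.ae huu
      rw [ae_iff] at h3 ⊢
      have h4 : {z : E n | ¬ u (x - ε • z) = u' (x - ε • z)} =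
          (fun z => ε • z) ⁻¹' {y | ¬ u (x - y) = u' (x - y)} := rfl
      rw [h4, Measure.addHaar_preimage_smul _ hε.ne', h3, mul_zero]
    filter_upwards [hηη, h2] with z hz1 hz2
    rw [hz1, hz2]
  have hint : ∫ z, η z = ∫ z, η' z := integral_congr_ae hηη
  have hC' : ∀ h : E n, Phi q u' h ≤ ENNReal.ofReal (C + 1) * ‖h‖ₑ := by
    intro h
    rw [← hPhi]
    refine (hC h).trans ?_
    gcongr
    linarith
  have hmono : Monotone (fun x : ℝ≥0∞ => ‖∫ z, η z‖ₑ ^ q * x) := fun a b hab => by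
    dsimp only; gcongr
  have hcont : Continuous (fun x : ℝ≥0∞ => ‖∫ z, η z‖ₑ ^ q * x) :=
    ENNReal.continuous_const_mul (ENNReal.rpow_ne_top_of_nonneg hq0.le enorm_ne_top)
  have hl := hmono.map_liminf_of_continuousAt
    (fun ε : ℝ => (∫⁻ h in ann n ε 1, Phi q u h / ‖h‖ₑ ^ (n + 2)) /
      ENNReal.ofReal |Real.log ε|) hcont.continuousAt (F := 𝓝[>] (0 : ℝ))
  rw [hl]
  apply B_liminf
  intro δ hδ
  have hsm := B_sm hS q hq u' hu'm (hu.ae_eq huu) (C + 1) (by linarith) hC' η' hη'm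
    (hη.congr hηη) δ hδ
  filter_upwards [hsm, self_mem_nhdsWithin] with ε h1 h2
  rw [hmoll ε h2]
  simp only [Function.comp, hPhi, hint]
  exact h1

end R257.BJ
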